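import Pool.Agent.Lib.MP_1a91b9_nuT.DB.Od
import Pool.Agent.Lib.MP_1a91b9_nuT.CF.Frob
import Pool.Agent.Lib.MP_1a91b9_nuT.CF.ExtSum

/-!
# DX: a normal subgroup containing almost all Frobenius elements of degree one

PROOF (complete; stream DX of helper92, top of Theorem D). Jobs FrA (`PZ_nonprime`), FrB (`eq_one_of_spl`), FrC
(`top_of_frob`).

FrA `PZ_nonprime`: `CF.PZ_high_deg k F` with `k = (⊥ : IntermediateField ℚ F)` (in `Type u`; `ℚ` is in the wrong
universe), and `PZ_mono`. One shows: if the inertia degree of `v` over `𝓞 k` is one then `nrm v` is prime: `nrm v = nrm v0 ^ 1`,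
`v0 = v.under (𝓞 k)` (residue fields: `Ideal.inertiaDeg` = finrank of the residue extension), and `nrm v0` is prime: an
element of `𝓞 k` is an integral rational number, so it is the image of an element of `ℤ`
(`IsIntegrallyClosed`, `IntermediateField.mem_bot`); so `ℤ → 𝓞 k/v0` is surjective and its kernel is a nonzero prime ideal
of `ℤ` (`v0` contains the nonzero integer `nrm v0`), `(p)`: `Nat.card (𝓞 k/v0) = p`. (Or bound the sum directly: `v` with `nrm v` not
prime has norm at least `p^2`, at most `[F:ℚ]` places above each `p`.)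

FrB `eq_one_of_spl`: `T/F` Galois and almost all the places of prime norm split completely in `T`. For
`1 < s ≤ 2`: `PZ univ ≤ PZ S + PZ {nrm v not prime} + PZ {Spl T}` (`PZ_mono`, `PZ_union`), where
`PZ S ≤ B1` (`PZ_finite`), `PZ {v | nrm v not prime} ≤ B2` (`PZ_nonprime`), `PZ univ ≥
log (1/(s-1)) - B3` (`prime_sum F`) and `[T:F] * PZ {Spl T} ≤ PZ (univ of T) ≤ log (1/(s-1)) + B4` (`PZ_up`,
`prime_sum T`). So `(1 - 1/[T:F]) log (1/(s-1)) ≤ B`: as `log (1/(s-1)) → ∞` when `s → 1`, `[T:F] = 1`.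

FrC `top_of_frob`: `T` = the fixed field of `H` (`IntermediateField.fixedField H`; Galois over `F` because `H` is
normal: `IsGalois.of_fixedField_normal_subgroup` or similar; a number field: `NumberField` instance
for intermediate fields; the algebra structures are instances). Let `v` be a place of prime norm `p`,
outside `S`, not ramified in `L` (`ram_finite`), `W` a place of `L` above `v` (`exists_over`), `φ` a
Frobenius element at `W` (`exists_fr`), `φ ∈ H` so `φ x = x` for `x : T`. `fr_fix` with `L := T`, `N := L`,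
`n = nrm v`, `f = 1`: the inertia degree of `W.under (𝓞 T)` over `F` divides `1`. Not ramified in `L`
implies not ramified in `T` (`ramificationIdx` is multiplicative in towers; `Ram` is defined by
`ramificationIdxIn`). So `Spl T v`. `eq_one_of_spl`: `[T:F] = 1`, `T = ⊥`, and `H = ⊤`
(`IntermediateField.fixingSubgroup_fixedField`, `IsGalois` correspondence;
`IntermediateField.finrank_eq_one_iff`).
-/

set_option autoImplicit false

namespace Pool.Agent.Lib.MP_1a91b9_nuT.DX

variable [CD]

open NumberField IsDedekindDomain WeierstrassCurve DB Pool.Agent.Lib.MP_1a91b9_nt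

universe u

/-- an algebraic integer of the smallest field is an integer -/
private theorem fra_int {F : Type u} [Field F] [NumberField F]
    (x : 𝓞 (⊥ : IntermediateField ℚ F)) : ∃ n : ℤ, (n : 𝓞 (⊥ : IntermediateField ℚ F)) = x := by
  obtain ⟨q, hq⟩ := IntermediateField.mem_bot.1 (x : (⊥ : IntermediateField ℚ F)).2
  have h1 : IsIntegral ℤ q := by
    have h2 : IsIntegral ℤ ((x : (⊥ : IntermediateField ℚ F)) : F) :=
      (RingOfIntegers.isIntegral_coe x).map
        ((⊥ : IntermediateField ℚ F).val.restrictScalars ℤ)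
    rw [← hq] at h2
    exact (isIntegral_algebraMap_iff (algebraMap ℚ F).injective).1 h2
  obtain ⟨n, hn⟩ := IsIntegrallyClosed.isIntegral_iff.1 h1
  refine ⟨n, ?_⟩
  apply RingOfIntegers.ext
  apply Subtype.ext
  rw [← hq, ← hn]
  simp

/-- the norm of a place of the smallest field is a prime number -/
private theorem fra_prime {F : Type u} [Field F] [NumberField F]
    (v : HeightOneSpectrum (𝓞 (⊥ : IntermediateField ℚ F))) :
    (Ideal.absNorm v.asIdeal).Prime := by
  have hm : v.asIdeal.IsMaximal := v.isMaximal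
  have hfin : Finite (𝓞 (⊥ : IntermediateField ℚ F) ⧸ v.asIdeal) :=
    Ideal.finiteQuotientOfFreeOfNeBot v.asIdeal v.ne_bot
  obtain ⟨p, hp⟩ := CharP.exists (𝓞 (⊥ : IntermediateField ℚ F) ⧸ v.asIdeal)
  have hpp : p.Prime := CharP.char_is_prime (𝓞 (⊥ : IntermediateField ℚ F) ⧸ v.asIdeal) p
  have hinj : Function.Injective
      (ZMod.castHom (dvd_refl p) (𝓞 (⊥ : IntermediateField ℚ F) ⧸ v.asIdeal)) :=
    ZMod.castHom_injective _
  have hsur : Function.Surjective
      (ZMod.castHom (dvd_refl p) (𝓞 (⊥ : IntermediateField ℚ F) ⧸ v.asIdeal)) := by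
    intro y
    obtain ⟨x, rfl⟩ := Ideal.Quotient.mk_surjective y
    obtain ⟨n, rfl⟩ := fra_int x
    refine ⟨(n : ZMod p), ?_⟩
    rw [map_intCast, map_intCast]
  have hcard : Nat.card (𝓞 (⊥ : IntermediateField ℚ F) ⧸ v.asIdeal) = p := by
    rw [← Nat.card_congr (Equiv.ofBijective _ ⟨hinj, hsur⟩), Nat.card_zmod]
  rw [Ideal.absNorm_apply, Submodule.cardQuot_apply]
  rw [hcard]
  exact hpp

theorem PZ_nonprime (F : Type u) [Field F] [NumberField F] : ∃ B : ℝ, ∀ s : ℝ, 1 < s →
    CF.PZ {v : HeightOneSpectrum (𝓞 F) | ¬ (nrm v).Prime} s ≤ B := by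
  obtain ⟨B, hB⟩ := CF.PZ_high_deg (⊥ : IntermediateField ℚ F) F
  refine ⟨B, fun s hs => (CF.PZ_mono ?_ s hs).trans (hB s hs)⟩
  intro v hv
  rw [Set.mem_ofPred_eq] at hv ⊢
  intro h1
  apply hv
  have hm : v.asIdeal.IsMaximal := v.isMaximal
  have hm0 : (v.under (𝓞 (⊥ : IntermediateField ℚ F))).asIdeal.IsMaximal :=
    (v.under (𝓞 (⊥ : IntermediateField ℚ F))).isMaximal
  have hover : v.asIdeal.LiesOver (v.under (𝓞 (⊥ : IntermediateField ℚ F))).asIdeal := ⟨rfl⟩
  rw [nrm_eq, ← Ideal.absNorm_pow_inertiaDeg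
    (v.under (𝓞 (⊥ : IntermediateField ℚ F))).asIdeal v.asIdeal, h1, pow_one]
  exact fra_prime _

/-- a Galois extension in which almost all the places of prime norm split is trivial -/
theorem eq_one_of_spl {F T : Type u} [Field F] [NumberField F] [Field T] [NumberField T]
    [Algebra F T] [IsGalois F T] {S : Set (HeightOneSpectrum (𝓞 F))} (hS : S.Finite)
    (h : ∀ v : HeightOneSpectrum (𝓞 F), v ∉ S → (nrm v).Prime → CF.Spl T v) :
    Module.finrank F T = 1 := by
  obtain ⟨B1, h1⟩ := CF.PZ_finite S hS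
  obtain ⟨B2, h2⟩ := PZ_nonprime F
  obtain ⟨B3, h3⟩ := CF.prime_sum F
  obtain ⟨B4, h4⟩ := CF.prime_sum T
  have hfin : Module.Finite F T := Module.Finite.of_restrictScalars_finite ℚ F T
  have hpos : 0 < Module.finrank F T := Module.finrank_pos
  by_contra hne
  have hn : (2 : ℝ) ≤ (Module.finrank F T : ℝ) := by
    have : 2 ≤ Module.finrank F T := by omega
    exact_mod_cast this
  have key : ∀ s : ℝ, 1 < s → s ≤ 2 → (Module.finrank F T : ℝ) *
      (Real.log (1 / (s - 1)) - (B1 + B2 + B3)) ≤ Real.log (1 / (s - 1)) + B4 := by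
    intro s hs hs2
    have a1 : CF.PZ (Set.univ : Set (HeightOneSpectrum (𝓞 F))) s ≤
        CF.PZ S s + CF.PZ {v : HeightOneSpectrum (𝓞 F) | ¬ (nrm v).Prime} s +
          CF.PZ {v : HeightOneSpectrum (𝓞 F) | CF.Spl T v} s := by
      refine (CF.PZ_mono (Z' := (S ∪ {v : HeightOneSpectrum (𝓞 F) | ¬ (nrm v).Prime}) ∪
        {v : HeightOneSpectrum (𝓞 F) | CF.Spl T v}) (fun v _ => ?_) s hs).trans ?_
      · by_cases hv : v ∈ S
        · exact Or.inl (Or.inl hv)
        · by_cases hp : (nrm v).Prime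
          · exact Or.inr (h v hv hp)
          · exact Or.inl (Or.inr hp)
      · refine (CF.PZ_union _ _ s hs).trans ?_
        have := CF.PZ_union S {v : HeightOneSpectrum (𝓞 F) | ¬ (nrm v).Prime} s hs
        linarith
    have a2 := (abs_le.1 (h3 s hs hs2)).1
    have a3 := (abs_le.1 (h4 s hs hs2)).2
    have a4 := CF.PZ_up F T {v : HeightOneSpectrum (𝓞 F) | CF.Spl T v} (fun v hv => hv) s hs
    have a5 : Real.log (1 / (s - 1)) - (B1 + B2 + B3) ≤
        CF.PZ {v : HeightOneSpectrum (𝓞 F) | CF.Spl T v} s := by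
      have b1 := h1 s hs
      have b2 := h2 s hs
      linarith
    have a6 := mul_le_mul_of_nonneg_left a5 (by linarith : (0 : ℝ) ≤ (Module.finrank F T : ℝ))
    linarith
  set n : ℝ := (Module.finrank F T : ℝ) with hn0
  set C : ℝ := |n * (B1 + B2 + B3) + B4| + 1 with hC
  have hC0 : 0 < C := by
    rw [hC]
    have := abs_nonneg (n * (B1 + B2 + B3) + B4)
    linarith
  have e1 : Real.exp (-C) ≤ 1 := by
    rw [Real.exp_le_one_iff]
    linarith
  have e2 := Real.exp_pos (-C)
  have k1 := key (1 + Real.exp (-C)) (by linarith) (by linarith)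
  rw [add_sub_cancel_left, one_div, ← Real.exp_neg, neg_neg, Real.log_exp] at k1
  have k2 : (n - 1) * C ≤ n * (B1 + B2 + B3) + B4 := by linarith
  have k3 : C ≤ (n - 1) * C := by nlinarith
  have k4 := le_abs_self (n * (B1 + B2 + B3) + B4)
  linarith

theorem top_of_frob {F L : Type u} [Field F] [NumberField F] [Field L] [NumberField L]
    [Algebra F L] [IsGalois F L] (H : Subgroup Gal(L/F)) [H.Normal]
    {S : Set (HeightOneSpectrum (𝓞 F))} (hS : S.Finite)
    (h : ∀ v : HeightOneSpectrum (𝓞 F), v ∉ S → (nrm v).Prime →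
      ∀ W : HeightOneSpectrum (𝓞 L), W.under (𝓞 F) = v → ∀ φ : Gal(L/F), CF.IsFr v W φ → φ ∈ H) :
    H = ⊤ := by
  classical
  have h1 : Module.finrank F (IntermediateField.fixedField H) = 1 := by
    refine eq_one_of_spl (S := S ∪ {v | CF.Ram L v}) (hS.union (CF.ram_finite F L)) ?_
    intro v hv hp
    have hvS : v ∉ S := fun hc => hv (Or.inl hc)
    have hr : ¬ CF.Ram L v := fun hc => hv (Or.inr hc)
    obtain ⟨W, hW⟩ := CF.exists_over (N := L) v
    obtain ⟨φ, hφ⟩ := CF.exists_fr (k := F) W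
    rw [hW] at hφ
    have hφH := h v hvS hp W hW φ hφ
    have hf := CF.fr_fix (L := IntermediateField.fixedField H) W φ (nrm v) 1 v hW (pow_one _).symm
      one_pos hφ (fun x => x.2 ⟨φ, hφH⟩)
    have hVv : (W.under (𝓞 (IntermediateField.fixedField H))).under (𝓞 F) = v := by
      rw [← hW]
      apply HeightOneSpectrum.ext
      exact Ideal.under_under W.asIdeal
    generalize hVW : W.under (𝓞 (IntermediateField.fixedField H)) = V at hf hVv
    have i0 : v.asIdeal.IsPrime := v.isPrime
    have i1 : V.asIdeal.IsPrime := V.isPrime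
    have i2 : W.asIdeal.IsPrime := W.isPrime
    have i3 : V.asIdeal.LiesOver v.asIdeal := ⟨by rw [← hVv]; rfl⟩
    have i4 : W.asIdeal.LiesOver v.asIdeal := ⟨by rw [← hW]; rfl⟩
    have i5 : W.asIdeal.LiesOver V.asIdeal := ⟨by rw [← hVW]; rfl⟩
    have hW1 : W.asIdeal.ramificationIdx (𝓞 F) = 1 := by
      unfold CF.Ram at hr
      rw [not_not, Ideal.ramificationIdxIn_eq_ramificationIdx v.asIdeal W.asIdeal Gal(L/F)] at hr
      exact hr
    constructor
    · rw [Ideal.ramificationIdxIn_eq_ramificationIdx v.asIdeal V.asIdeal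
        Gal((IntermediateField.fixedField H)/F)]
      have h2 : V.asIdeal.ramificationIdx (𝓞 F) ∣ W.asIdeal.ramificationIdx (𝓞 F) :=
        Ideal.ramificationIdx_below_dvd V.asIdeal W.asIdeal
      rw [hW1] at h2
      exact Nat.dvd_one.1 h2
    · rw [Ideal.inertiaDegIn_eq_inertiaDeg v.asIdeal V.asIdeal
        Gal((IntermediateField.fixedField H)/F)]
      exact Nat.dvd_one.1 hf
  have h2 := IntermediateField.finrank_eq_one_iff.1 h1
  have h3 := IntermediateField.fixingSubgroup_fixedField H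
  rw [h2, IntermediateField.fixingSubgroup_bot] at h3
  exact h3.symm

end Pool.Agent.Lib.MP_1a91b9_nuT.DX
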